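import Pool.Agent.Helper20.IIC.Stmts

namespace IIC

open scoped BigOperators

variable {d : ℕ}

theorem mon_a_nonneg {β : ℝ} (hβ : 0 ≤ β) : 0 ≤ Real.exp (2 * β) - 1 := by
  have := Real.one_le_exp (show 0 ≤ 2 * β by linarith)
  linarith

theorem mon_wpos {β : ℝ} (hβ : 0 ≤ β) (Λ T : Finset (Ed d)) : 0 ≤ wW β Λ T := by
  unfold wW
  have := mon_a_nonneg hβ
  positivity

theorem mon_Zpos {β : ℝ} (hβ : 0 ≤ β) (Λ : Finset (Ed d)) :
    0 < ∑ T ∈ Λ.powerset, wW β Λ T := by
  refine Finset.sum_pos' (fun T _ => mon_wpos hβ Λ T) ⟨∅, Finset.empty_mem_powerset Λ, ?_⟩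
  unfold wW
  simp

theorem mon_exw (Λ Λ' T : Finset (Ed d)) (h : Λ ⊆ Λ') (hT : T ⊆ Λ) :
    exw Λ' (T ∪ (Λ' \ Λ)) = exw Λ T := by
  classical
  funext e
  unfold exw ext
  by_cases h1 : e ∈ Λ
  · rw [if_pos (h h1), if_pos h1]
    simp [h1]
  · by_cases h2 : e ∈ Λ'
    · rw [if_pos h2, if_neg h1]
      simp [h1, h2]
    · rw [if_neg h2, if_neg h1]

theorem mon_card (Λ Λ' T : Finset (Ed d)) (hT : T ⊆ Λ) :
    (T ∪ (Λ' \ Λ)).card = T.card + (Λ' \ Λ).card := by
  classical
  apply Finset.card_union_of_disjoint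
  rw [Finset.disjoint_left]
  intro e he he'
  exact (Finset.mem_sdiff.mp he').2 (hT he)

/-- sums over `T' ⊆ Λ'` containing `Λ' \ Λ` -/
theorem mon_sum (Λ Λ' : Finset (Ed d)) (h : Λ ⊆ Λ') (f : Finset (Ed d) → ℝ)
    (hf : ∀ T ∈ Λ'.powerset, ¬ (Λ' \ Λ ⊆ T) → f T = 0) :
    ∑ T ∈ Λ'.powerset, f T = ∑ T ∈ Λ.powerset, f (T ∪ (Λ' \ Λ)) := by
  classical
  have h1 : ∑ T ∈ Λ'.powerset, f T = ∑ T ∈ Λ'.powerset.filter (fun T => Λ' \ Λ ⊆ T), f T := by
    rw [Finset.sum_filter]
    refine Finset.sum_congr rfl (fun T hT => ?_)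
    by_cases h2 : Λ' \ Λ ⊆ T
    · rw [if_pos h2]
    · rw [if_neg h2, hf T hT h2]
  rw [h1]
  refine (Finset.sum_bij' (fun T _ => T ∪ (Λ' \ Λ)) (fun T _ => T ∩ Λ) ?_ ?_ ?_ ?_ ?_).symm
  · intro T hT
    rw [Finset.mem_powerset] at hT
    rw [Finset.mem_filter, Finset.mem_powerset]
    exact ⟨Finset.union_subset (hT.trans h) Finset.sdiff_subset, Finset.subset_union_right⟩
  · intro T _
    rw [Finset.mem_powerset]
    exact Finset.inter_subset_right
  · intro T hT
    rw [Finset.mem_powerset] at hT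
    ext e
    simp only [Finset.mem_inter, Finset.mem_union, Finset.mem_sdiff]
    constructor
    · rintro ⟨h2 | h2, h3⟩
      · exact h2
      · exact absurd h3 h2.2
    · intro h2
      exact ⟨Or.inl h2, hT h2⟩
  · intro T hT
    rw [Finset.mem_filter, Finset.mem_powerset] at hT
    ext e
    simp only [Finset.mem_inter, Finset.mem_union, Finset.mem_sdiff]
    constructor
    · rintro (h2 | h2)
      · exact h2.1
      · exact hT.2 (Finset.mem_sdiff.mpr h2)
    · intro h2
      by_cases h3 : e ∈ Λ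
      · exact Or.inl ⟨h2, h3⟩
      · exact Or.inr ⟨hT.1 h2, h3⟩
  · intro T _
    rfl

theorem st_MON (hFKG : ST_FKG) : ST_MON := by
  classical
  intro d β hβ Λ Λ' hΛ A hA
  rcases eq_or_lt_of_le hβ with h0 | h0
  · -- β = 0
    subst h0
    have hw : ∀ (L T : Finset (Ed d)), T ≠ ∅ → wW (0 : ℝ) L T = 0 := by
      intro L T hT
      unfold wW
      have : T.card ≠ 0 := by
        rwa [Ne, Finset.card_eq_zero]
      simp [this]
    have hPW : ∀ L : Finset (Ed d), PW (0 : ℝ) L A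
        = A.indicator (fun _ => (1 : ℝ)) (exw L ∅) := by
      intro L
      have hZ := mon_Zpos le_rfl L (β := (0 : ℝ))
      have h1 : ∑ T ∈ L.powerset, wW (0 : ℝ) L T = wW 0 L ∅ := by
        apply Finset.sum_eq_single_of_mem _ (Finset.empty_mem_powerset L)
        intro T _ hT
        exact hw L T hT
      have h2 : ∑ T ∈ L.powerset, A.indicator (fun _ => wW (0 : ℝ) L T) (exw L T)
          = A.indicator (fun _ => wW (0 : ℝ) L ∅) (exw L ∅) := by
        apply Finset.sum_eq_single_of_mem _ (Finset.empty_mem_powerset L)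
        intro T _ hT
        rw [hw L T hT]
        simp
      unfold PW
      rw [h1] at hZ
      rw [h1, h2]
      by_cases h3 : exw L ∅ ∈ A
      · rw [Set.indicator_of_mem h3, Set.indicator_of_mem h3, div_self hZ.ne']
      · rw [Set.indicator_of_notMem h3, Set.indicator_of_notMem h3, zero_div]
    rw [hPW, hPW]
    by_cases h3 : exw Λ' ∅ ∈ A
    · have h4 : exw Λ' ∅ ≤ exw Λ (∅ : Finset (Ed d)) := by
        intro e
        unfold exw ext
        by_cases h5 : e ∈ Λ
        · rw [if_pos (hΛ h5), if_pos h5]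
        · rw [if_neg h5]
          exact Bool.le_true _
      rw [Set.indicator_of_mem h3, Set.indicator_of_mem (hA h4 h3)]
    · rw [Set.indicator_of_notMem h3]
      exact Set.indicator_nonneg (fun _ _ => zero_le_one) _
  · have ha : 0 < Real.exp (2 * β) - 1 := by
      have := Real.add_one_lt_exp (show 2 * β ≠ 0 by linarith)
      linarith
    obtain ⟨B, hBdef⟩ : ∃ B : Set (Cfg d), B = {ω | ∀ e ∈ Λ' \ Λ, ω e = true} := ⟨_, rfl⟩
    have hB : IsUpperSet B := by
      intro ω ω' hω hωB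
      rw [hBdef] at hωB ⊢
      intro e he
      have h1 := hω e
      rw [hωB e he] at h1
      exact Bool.eq_true_of_true_le h1
    have hwt : ∀ T ∈ Λ.powerset, wW β Λ' (T ∪ (Λ' \ Λ))
        = (Real.exp (2 * β) - 1) ^ (Λ' \ Λ).card * wW β Λ T := by
      intro T hT
      rw [Finset.mem_powerset] at hT
      unfold wW
      rw [mon_exw Λ Λ' T hΛ hT, mon_card Λ Λ' T hT, pow_add]
      ring
    have hmem : ∀ T ∈ Λ'.powerset, (exw Λ' T ∈ B ↔ Λ' \ Λ ⊆ T) := by
      intro T hT
      rw [hBdef]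
      constructor
      · intro h1 e he
        have h2 := h1 e he
        unfold exw ext at h2
        rw [if_pos (Finset.mem_sdiff.mp he).1] at h2
        exact of_decide_eq_true h2
      · intro h1 e he
        unfold exw ext
        rw [if_pos (Finset.mem_sdiff.mp he).1]
        exact decide_eq_true (h1 he)
    have hsumC : ∀ C : Set (Cfg d), ∑ T ∈ Λ'.powerset,
        (C ∩ B).indicator (fun _ => wW β Λ' T) (exw Λ' T)
        = (Real.exp (2 * β) - 1) ^ (Λ' \ Λ).card *
          ∑ T ∈ Λ.powerset, C.indicator (fun _ => wW β Λ T) (exw Λ T) := by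
      intro C
      rw [mon_sum Λ Λ' hΛ (fun T => (C ∩ B).indicator (fun _ => wW β Λ' T) (exw Λ' T))
        (by
          intro T hT h1
          apply Set.indicator_of_notMem
          rintro ⟨_, h2⟩
          exact h1 ((hmem T hT).mp h2)), Finset.mul_sum]
      refine Finset.sum_congr rfl (fun T hT => ?_)
      have h3 : exw Λ' (T ∪ (Λ' \ Λ)) ∈ B := by
        rw [hmem _ (Finset.mem_powerset.mpr (Finset.union_subset
          ((Finset.mem_powerset.mp hT).trans hΛ) Finset.sdiff_subset))]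
        exact Finset.subset_union_right
      have h4 := mon_exw Λ Λ' T hΛ (Finset.mem_powerset.mp hT)
      by_cases h5 : exw Λ T ∈ C
      · rw [Set.indicator_of_mem h5, Set.indicator_of_mem
          (show exw Λ' (T ∪ (Λ' \ Λ)) ∈ C ∩ B from ⟨by rw [h4]; exact h5, h3⟩), hwt T hT]
      · rw [Set.indicator_of_notMem h5, Set.indicator_of_notMem
          (show exw Λ' (T ∪ (Λ' \ Λ)) ∉ C ∩ B from fun h6 => h5 (by rw [← h4]; exact h6.1)),
          mul_zero]
    have hZ := mon_Zpos hβ Λ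
    have hZ' := mon_Zpos hβ Λ'
    have hPWB : PW β Λ' B = (Real.exp (2 * β) - 1) ^ (Λ' \ Λ).card *
        (∑ T ∈ Λ.powerset, wW β Λ T) / ∑ T ∈ Λ'.powerset, wW β Λ' T := by
      have h1 := hsumC Set.univ
      unfold PW
      simp only [Set.univ_inter, Set.indicator_univ] at h1
      rw [h1]
    have hPWAB : PW β Λ' (A ∩ B) = (Real.exp (2 * β) - 1) ^ (Λ' \ Λ).card *
        (∑ T ∈ Λ.powerset, A.indicator (fun _ => wW β Λ T) (exw Λ T)) /
          ∑ T ∈ Λ'.powerset, wW β Λ' T := by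
      unfold PW
      rw [hsumC A]
    have key := hFKG d β hβ Λ' A B hA hB
    have hBpos : 0 < PW β Λ' B := by
      rw [hPWB]
      positivity
    rw [← le_div_iff₀ hBpos] at key
    refine key.trans (le_of_eq ?_)
    rw [hPWAB, hPWB]
    unfold PW
    have ha' : (Real.exp (2 * β) - 1) ^ (Λ' \ Λ).card ≠ 0 := (pow_pos ha _).ne'
    field_simp

end IIC
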