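import Pool.Agent.Helper20.IIC.Stmts

namespace IIC

open scoped BigOperators

theorem simf_two_self {V : Type} (x : V) (σ : V → ℤˣ) : two x x σ = 1 := by
  unfold two
  have : ∀ a : ℤˣ, a * a = 1 := by decide
  rw [this]
  simp

theorem simf_two_mul {V : Type} (o y z : V) (σ : V → ℤˣ) :
    two o y σ * two o z σ = two z y σ := by
  unfold two
  have h : ∀ a b c : ℤˣ, (a * b) * (a * c) = c * b := by decide
  rw [← h (σ o) (σ y) (σ z)]
  push_cast
  ring

theorem simf_conn_mono {V E : Type} (ends : E → Sym2 V) {S T : Set E} (h : S ⊆ T) {x y : V}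
    (hc : Conn ends S x y) : Conn ends T x y := by
  unfold Conn at *
  have hle : Step ends S ≤ Step ends T := fun a b hab => by
    obtain ⟨e, he, hee⟩ := hab
    exact ⟨e, h he, hee⟩
  exact Relation.ReflTransGen.mono hle x y hc

theorem st_SIMF (hN : ST_TWN) (hS : ST_TWS) (hW : ST_SWI) (hR : ST_SRC) (hF : ST_FKS) :
    ST_SIMF := by
  classical
  intro V _ _ E _ _ ends β o y B hβ hB
  have hone : (fun σ : V → ℤˣ => (1 : ℝ)) = two o o := by
    funext σ
    rw [simf_two_self]
  have hind : ∀ f : (V → ℤˣ) → ℝ, ∑ T : Finset E, tw ends β T f = Zs ends β ∅ f := by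
    intro f
    rw [← hS V E ends β ∅ f]
    refine Finset.sum_congr rfl (fun T _ => ?_)
    rw [Set.indicator_of_mem]
    exact Finset.disjoint_empty_right T
  have hZ : ∀ x z : V, (∑ T : Finset E, (cn ends x z).indicator (fkw ends β) T)
      = Real.exp (β * (Finset.univ : Finset E).card) * Zs ends β ∅ (two x z) := by
    intro x z
    have := hF V E ends β ∅ x z hβ
    rw [Finset.sdiff_empty] at this
    rw [← this]
    refine Finset.sum_congr rfl (fun T _ => ?_)
    congr 1
    ext S
    simp [ef]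
  have hZ1 : (∑ T : Finset E, fkw ends β T)
      = Real.exp (β * (Finset.univ : Finset E).card) * Zs ends β ∅ (fun _ => 1) := by
    rw [hone, ← hZ o o]
    refine Finset.sum_congr rfl (fun T _ => ?_)
    rw [Set.indicator_of_mem]
    exact Relation.ReflTransGen.refl
  have hZpos : 0 < Zs ends β ∅ (fun _ : V → ℤˣ => (1 : ℝ)) := by
    unfold Zs
    apply Finset.sum_pos
    · intro σ _
      rw [one_mul]
      exact Finset.prod_pos (fun e _ => Real.exp_pos _)
    · exact ⟨fun _ => 1, Finset.mem_univ _⟩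
  have hexp : 0 < Real.exp (β * (Finset.univ : Finset E).card) := Real.exp_pos _
  have hfk : ∀ x z : V, fkP ends β (cn ends x z)
      = Zs ends β ∅ (two x z) / Zs ends β ∅ (fun _ => 1) := by
    intro x z
    unfold fkP
    rw [hZ, hZ1, mul_div_mul_left _ _ hexp.ne']
  have htwn : ∀ (T : Finset E) (x z : V), 0 ≤ tw ends β T (two x z) := fun T x z =>
    hN V E ends β T x z hβ
  have htw1 : ∀ T : Finset E, 0 ≤ tw ends β T (fun _ => 1) := by
    intro T
    rw [hone]
    exact htwn T o o
  have key : Zs ends β ∅ (two o y) * Zs ends β ∅ (fun _ => 1)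
      ≤ ∑ z ∈ B, Zs ends β ∅ (two o z) * Zs ends β ∅ (two z y) := by
    have h1 : Zs ends β ∅ (two o y) * Zs ends β ∅ (fun _ => 1)
        ≤ ∑ z ∈ B, PP ends β (two o y) (fun _ => 1)
          (fun T₁ T₂ => (ef ∅).indicator (fun _ => (cn ends o z).indicator (fun _ => (1 : ℝ))
            (T₁ ∪ T₂)) T₁) := by
      rw [← hind, ← hind, Finset.sum_mul_sum]
      unfold PP
      rw [Finset.sum_comm (s := B)]
      refine Finset.sum_le_sum (fun T₁ _ => ?_)
      rw [Finset.sum_comm (s := B)]
      refine Finset.sum_le_sum (fun T₂ _ => ?_)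
      rw [← Finset.mul_sum]
      have hef : ∀ z, (ef (∅ : Finset E)).indicator (fun _ => (cn ends o z).indicator
          (fun _ => (1 : ℝ)) (T₁ ∪ T₂)) T₁ = (cn ends o z).indicator (fun _ => (1 : ℝ))
            (T₁ ∪ T₂) := by
        intro z
        rw [Set.indicator_of_mem]
        exact Finset.disjoint_empty_right T₁
      rw [Finset.sum_congr rfl (fun z _ => hef z)]
      by_cases h0 : tw ends β T₁ (two o y) = 0
      · rw [h0, zero_mul, zero_mul]
      · obtain ⟨z, hz, hoz⟩ := hB T₁ (hR V E ends β T₁ o y h0)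
        have h2 : (1 : ℝ) ≤ ∑ z ∈ B, (cn ends o z).indicator (fun _ => (1 : ℝ)) (T₁ ∪ T₂) := by
          have h3 := Finset.single_le_sum (f := fun z => (cn ends o z).indicator
            (fun _ => (1 : ℝ)) (T₁ ∪ T₂)) (fun z _ => Set.indicator_nonneg
              (fun _ _ => zero_le_one) _) hz
          have h4 : (cn ends o z).indicator (fun _ => (1 : ℝ)) (T₁ ∪ T₂) = 1 := by
            rw [Set.indicator_of_mem]
            refine simf_conn_mono ends ?_ hoz
            rw [Finset.coe_union]
            exact Set.subset_union_left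
          simp only [h4] at h3
          exact h3
        calc tw ends β T₁ (two o y) * tw ends β T₂ (fun _ => 1)
            = tw ends β T₁ (two o y) * tw ends β T₂ (fun _ => 1) * 1 := by ring
          _ ≤ _ := mul_le_mul_of_nonneg_left h2 (mul_nonneg (htwn _ _ _) (htw1 _))
    refine h1.trans (Finset.sum_le_sum (fun z _ => ?_))
    have h5 := hW V E ends β ∅ (two o y) (fun _ => 1) o z
      (fun T => (cn ends o z).indicator (fun _ => (1 : ℝ)) T) (by
        intro T hT
        rw [Finset.sdiff_empty]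
        by_contra hc
        exact hT (Set.indicator_of_notMem (show T ∉ cn ends o z from hc) _))
    rw [h5]
    have h6 : (fun σ : V → ℤˣ => two o y σ * two o z σ) = two z y := by
      funext σ
      exact simf_two_mul o y z σ
    have h7 : (fun σ : V → ℤˣ => (1 : ℝ) * two o z σ) = two o z := by
      funext σ
      rw [one_mul]
    rw [h6, h7, ← hind (two o z), ← hind (two z y), mul_comm, Finset.sum_mul_sum]
    unfold PP
    refine Finset.sum_le_sum (fun T₁ _ => Finset.sum_le_sum (fun T₂ _ => ?_))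
    have h8 : (ef (∅ : Finset E)).indicator (fun _ => (cn ends o z).indicator
          (fun _ => (1 : ℝ)) (T₁ ∪ T₂)) T₁ ≤ 1 := by
      refine Set.indicator_le' (fun _ _ => ?_) (fun _ _ => zero_le_one) T₁
      exact Set.indicator_le' (fun _ _ => le_refl _) (fun _ _ => zero_le_one) _
    calc _ ≤ tw ends β T₁ (two z y) * tw ends β T₂ (two o z) * 1 :=
          mul_le_mul_of_nonneg_left h8 (mul_nonneg (htwn _ _ _) (htwn _ _ _))
      _ = _ := mul_one _
  rw [hfk]
  have h9 : ∑ z ∈ B, fkP ends β (cn ends o z) * fkP ends β (cn ends z y)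
      = (∑ z ∈ B, Zs ends β ∅ (two o z) * Zs ends β ∅ (two z y)) /
        (Zs ends β ∅ (fun _ => 1) * Zs ends β ∅ (fun _ => 1)) := by
    rw [Finset.sum_div]
    refine Finset.sum_congr rfl (fun z _ => ?_)
    rw [hfk, hfk, div_mul_div_comm]
  rw [h9, div_le_div_iff₀ hZpos (mul_pos hZpos hZpos)]
  calc Zs ends β ∅ (two o y) * (Zs ends β ∅ (fun _ => 1) * Zs ends β ∅ (fun _ => 1))
      = (Zs ends β ∅ (two o y) * Zs ends β ∅ (fun _ => 1)) * Zs ends β ∅ (fun _ => 1) := by ring
    _ ≤ _ := mul_le_mul_of_nonneg_right key hZpos.le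

end IIC
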