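import Pool.Agent.Helper20.IIC.Stmts

namespace IIC

open scoped BigOperators

universe u v

/-- For fixed `T₁ ⊆ T`: sum over the `T₂` with `T₁ ∪ T₂ = T`. -/
theorem swi_inner {E : Type v} [Fintype E] [DecidableEq E] (b : E → ℝ) (T T₁ : Finset E)
    (h : T₁ ⊆ T) :
    ∑ T₂ : Finset E, (if T₁ ∪ T₂ = T then ∏ e ∈ T₂, b e else 0)
      = (∏ e ∈ T \ T₁, b e) * ∏ e ∈ T₁, (b e + 1) := by
  rw [← Finset.sum_filter, Finset.prod_add_one, Finset.mul_sum]
  refine Finset.sum_bij' (fun T₂ _ => T₂ ∩ T₁) (fun S _ => (T \ T₁) ∪ S) ?_ ?_ ?_ ?_ ?_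
  · intro T₂ _
    exact Finset.mem_powerset.mpr Finset.inter_subset_right
  · intro S hS
    rw [Finset.mem_powerset] at hS
    rw [Finset.mem_filter]
    refine ⟨Finset.mem_univ _, ?_⟩
    ext e
    simp only [Finset.mem_union, Finset.mem_sdiff]
    constructor
    · rintro (h1 | h1 | h1)
      · exact h h1
      · exact h1.1
      · exact h (hS h1)
    · intro h1
      by_cases h2 : e ∈ T₁
      · exact Or.inl h2
      · exact Or.inr (Or.inl ⟨h1, h2⟩)
  · intro T₂ hT₂
    rw [Finset.mem_filter] at hT₂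
    rw [← hT₂.2]
    ext e
    simp only [Finset.mem_union, Finset.mem_sdiff, Finset.mem_inter]
    tauto
  · intro S hS
    rw [Finset.mem_powerset] at hS
    ext e
    simp only [Finset.mem_union, Finset.mem_sdiff, Finset.mem_inter]
    constructor
    · rintro ⟨h1 | h1, h2⟩
      · exact absurd h2 h1.2
      · exact h1
    · intro h1
      exact ⟨Or.inr h1, hS h1⟩
  · intro T₂ hT₂
    rw [Finset.mem_filter] at hT₂
    have h1 : T \ T₁ = T₂ \ T₁ := by
      rw [← hT₂.2]
      ext e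
      simp only [Finset.mem_union, Finset.mem_sdiff]
      tauto
    rw [h1, ← Finset.prod_union]
    · congr 1
      ext e
      simp only [Finset.mem_union, Finset.mem_sdiff, Finset.mem_inter]
      tauto
    · rw [Finset.disjoint_left]
      intro e he he'
      rw [Finset.mem_sdiff] at he
      rw [Finset.mem_inter] at he'
      exact he.2 he'.2

/-- the combinatorial identity behind the switching lemma -/
theorem swi_comb {E : Type v} [Fintype E] [DecidableEq E] (a b : E → ℝ) (F T : Finset E) :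
    ∑ T₁ : Finset E, ∑ T₂ : Finset E,
      (if Disjoint T₁ F ∧ T₁ ∪ T₂ = T then (∏ e ∈ T₁, a e) * ∏ e ∈ T₂, b e else 0)
      = (∏ e ∈ T \ F, (a e * (b e + 1) + b e)) * ∏ e ∈ T ∩ F, b e := by
  have h1 : ∀ T₁ : Finset E, ∑ T₂ : Finset E,
      (if Disjoint T₁ F ∧ T₁ ∪ T₂ = T then (∏ e ∈ T₁, a e) * ∏ e ∈ T₂, b e else 0)
      = if T₁ ∈ (T \ F).powerset then
          (∏ e ∈ T₁, a e * (b e + 1)) * ((∏ e ∈ (T \ F) \ T₁, b e) * ∏ e ∈ T ∩ F, b e)
        else 0 := by
    intro T₁
    by_cases h : T₁ ∈ (T \ F).powerset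
    · rw [if_pos h]
      rw [Finset.mem_powerset] at h
      have hT : T₁ ⊆ T := h.trans Finset.sdiff_subset
      have hF : Disjoint T₁ F := by
        rw [Finset.disjoint_left]
        intro e he
        exact (Finset.mem_sdiff.mp (h he)).2
      have h2 : ∀ T₂ : Finset E,
          (if Disjoint T₁ F ∧ T₁ ∪ T₂ = T then (∏ e ∈ T₁, a e) * ∏ e ∈ T₂, b e else 0)
          = (∏ e ∈ T₁, a e) * (if T₁ ∪ T₂ = T then ∏ e ∈ T₂, b e else 0) := by
        intro T₂
        by_cases h3 : T₁ ∪ T₂ = T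
        · rw [if_pos ⟨hF, h3⟩, if_pos h3]
        · rw [if_neg (fun h4 => h3 h4.2), if_neg h3, mul_zero]
      rw [Finset.sum_congr rfl (fun T₂ _ => h2 T₂), ← Finset.mul_sum, swi_inner b T T₁ hT,
        Finset.prod_mul_distrib]
      have h4 : ∏ e ∈ T \ T₁, b e = (∏ e ∈ (T \ F) \ T₁, b e) * ∏ e ∈ T ∩ F, b e := by
        rw [← Finset.prod_union]
        · congr 1
          ext e
          simp only [Finset.mem_union, Finset.mem_sdiff, Finset.mem_inter]
          constructor
          · rintro ⟨h5, h6⟩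
            by_cases h7 : e ∈ F
            · exact Or.inr ⟨h5, h7⟩
            · exact Or.inl ⟨⟨h5, h7⟩, h6⟩
          · rintro (h5 | h5)
            · exact ⟨h5.1.1, h5.2⟩
            · exact ⟨h5.1, fun h6 => (Finset.mem_sdiff.mp (h h6)).2 h5.2⟩
        · rw [Finset.disjoint_left]
          intro e he he'
          simp only [Finset.mem_sdiff, Finset.mem_inter] at he he'
          exact he.1.2 he'.2
      rw [h4]
      ring
    · rw [if_neg h]
      apply Finset.sum_eq_zero
      intro T₂ _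
      rw [if_neg]
      rintro ⟨h5, h6⟩
      apply h
      rw [Finset.mem_powerset, ← h6]
      intro e he
      rw [Finset.mem_sdiff, Finset.mem_union]
      exact ⟨Or.inl he, Finset.disjoint_left.mp h5 he⟩
  rw [Finset.sum_congr rfl (fun T₁ _ => h1 T₁), Finset.prod_add, Finset.sum_mul,
    ← Finset.sum_filter]
  refine Finset.sum_congr ?_ (fun T₁ _ => by ring)
  ext T₁
  simp

/-- the pair weight -/
noncomputable def swi_C {V : Type u} {E : Type v} [DecidableEq E] (ends : E → Sym2 V) (β : ℝ)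
    (F T : Finset E) (σ τ : V → ℤˣ) : ℝ :=
  (∏ e ∈ T \ F, ((Real.exp (β * bond ends σ e) - 1) * ((Real.exp (β * bond ends τ e) - 1) + 1)
    + (Real.exp (β * bond ends τ e) - 1))) * ∏ e ∈ T ∩ F, (Real.exp (β * bond ends τ e) - 1)

theorem swi_PP {V : Type u} [Fintype V] [DecidableEq V] {E : Type v} [Fintype E] [DecidableEq E]
    (ends : E → Sym2 V) (β : ℝ) (F : Finset E) (f g : (V → ℤˣ) → ℝ) (ψ : Finset E → ℝ) :
    PP ends β f g (fun T₁ T₂ => (ef F).indicator (fun _ => ψ (T₁ ∪ T₂)) T₁)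
      = ∑ T : Finset E, ψ T * ∑ σ : V → ℤˣ, ∑ τ : V → ℤˣ, f σ * g τ * swi_C ends β F T σ τ := by
  classical
  unfold PP
  have h1 : ∀ T₁ T₂ : Finset E, tw ends β T₁ f * tw ends β T₂ g *
      (ef F).indicator (fun _ => ψ (T₁ ∪ T₂)) T₁
      = ∑ T : Finset E, ψ T * ∑ σ : V → ℤˣ, ∑ τ : V → ℤˣ, f σ * g τ *
        (if Disjoint T₁ F ∧ T₁ ∪ T₂ = T then (∏ e ∈ T₁, (Real.exp (β * bond ends σ e) - 1)) *
          ∏ e ∈ T₂, (Real.exp (β * bond ends τ e) - 1) else 0) := by
    intro T₁ T₂
    rw [Finset.sum_eq_single (T₁ ∪ T₂)]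
    · by_cases hd : Disjoint T₁ F
      · have h2 : (ef F).indicator (fun _ => ψ (T₁ ∪ T₂)) T₁ = ψ (T₁ ∪ T₂) :=
          Set.indicator_of_mem (show T₁ ∈ ef F from hd) _
        rw [h2]
        have h3 : ∀ σ τ : V → ℤˣ, f σ * g τ *
            (if Disjoint T₁ F ∧ T₁ ∪ T₂ = T₁ ∪ T₂ then
              (∏ e ∈ T₁, (Real.exp (β * bond ends σ e) - 1)) *
              ∏ e ∈ T₂, (Real.exp (β * bond ends τ e) - 1) else 0)
            = (f σ * ∏ e ∈ T₁, (Real.exp (β * bond ends σ e) - 1)) *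
              (g τ * ∏ e ∈ T₂, (Real.exp (β * bond ends τ e) - 1)) := by
          intro σ τ
          rw [if_pos ⟨hd, rfl⟩]
          ring
        rw [Finset.sum_congr rfl (fun σ _ => Finset.sum_congr rfl (fun τ _ => h3 σ τ))]
        unfold tw
        rw [Finset.sum_mul_sum]
        ring
      · have h2 : (ef F).indicator (fun _ => ψ (T₁ ∪ T₂)) T₁ = 0 :=
          Set.indicator_of_notMem (show T₁ ∉ ef F from hd) _
        rw [h2, mul_zero]
        symm
        apply mul_eq_zero_of_right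
        apply Finset.sum_eq_zero
        intro σ _
        apply Finset.sum_eq_zero
        intro τ _
        rw [if_neg (fun h => hd h.1), mul_zero]
    · intro T _ hT
      apply mul_eq_zero_of_right
      apply Finset.sum_eq_zero
      intro σ _
      apply Finset.sum_eq_zero
      intro τ _
      rw [if_neg (fun h => hT h.2.symm), mul_zero]
    · intro h
      exact absurd (Finset.mem_univ _) h
  rw [Finset.sum_congr rfl (fun T₁ _ => Finset.sum_congr rfl (fun T₂ _ => h1 T₁ T₂))]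
  have h4 : ∀ T₁ : Finset E, ∑ T₂ : Finset E, ∑ T : Finset E, ψ T * ∑ σ : V → ℤˣ,
      ∑ τ : V → ℤˣ, f σ * g τ *
        (if Disjoint T₁ F ∧ T₁ ∪ T₂ = T then (∏ e ∈ T₁, (Real.exp (β * bond ends σ e) - 1)) *
          ∏ e ∈ T₂, (Real.exp (β * bond ends τ e) - 1) else 0)
      = ∑ T : Finset E, ψ T * ∑ σ : V → ℤˣ, ∑ τ : V → ℤˣ, f σ * g τ * ∑ T₂ : Finset E,
        (if Disjoint T₁ F ∧ T₁ ∪ T₂ = T then (∏ e ∈ T₁, (Real.exp (β * bond ends σ e) - 1)) *
          ∏ e ∈ T₂, (Real.exp (β * bond ends τ e) - 1) else 0) := by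
    intro T₁
    rw [Finset.sum_comm]
    refine Finset.sum_congr rfl (fun T _ => ?_)
    rw [← Finset.mul_sum, Finset.sum_comm]
    congr 1
    refine Finset.sum_congr rfl (fun σ _ => ?_)
    rw [Finset.sum_comm]
    refine Finset.sum_congr rfl (fun τ _ => ?_)
    rw [← Finset.mul_sum]
  rw [Finset.sum_congr rfl (fun T₁ _ => h4 T₁), Finset.sum_comm]
  refine Finset.sum_congr rfl (fun T _ => ?_)
  rw [← Finset.mul_sum, Finset.sum_comm]
  congr 1
  refine Finset.sum_congr rfl (fun σ _ => ?_)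
  rw [Finset.sum_comm]
  refine Finset.sum_congr rfl (fun τ _ => ?_)
  rw [← Finset.mul_sum, swi_comb]
  rfl

theorem swi_two {V : Type u} {E : Type v} [DecidableEq E] (ends : E → Sym2 V) (β : ℝ)
    (F T : Finset E) (σ τ : V → ℤˣ) (x y : V)
    (hc : Conn ends ((T \ F : Finset E) : Set E) x y) (h : swi_C ends β F T σ τ ≠ 0) :
    σ x * τ x = σ y * τ y := by
  unfold swi_C at h
  have h1 := left_ne_zero_of_mul h
  rw [Finset.prod_ne_zero_iff] at h1
  unfold Conn at hc
  induction hc with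
  | refl => rfl
  | @tail p q _ hs ih =>
    rw [ih]
    obtain ⟨e, he, hee⟩ := hs
    have h2 := h1 e (Finset.mem_coe.mp he)
    have h3 : ∀ ρ : V → ℤˣ, bond ends ρ e = (((ρ p * ρ q : ℤˣ) : ℤ) : ℝ) := by
      intro ρ
      unfold bond
      rw [hee]
      rfl
    rw [h3, h3] at h2
    have h4 : ∀ s t : ℤˣ, (Real.exp (β * ((s : ℤ) : ℝ)) - 1) *
        ((Real.exp (β * ((t : ℤ) : ℝ)) - 1) + 1) + (Real.exp (β * ((t : ℤ) : ℝ)) - 1) ≠ 0 →
        s = t := by
      intro s t hst
      by_contra hne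
      apply hst
      have h5 : t = -s := by
        rcases Int.units_eq_one_or s with rfl | rfl <;>
          rcases Int.units_eq_one_or t with rfl | rfl <;> simp_all
      rw [h5]
      have h6 : Real.exp (β * (((-s : ℤˣ) : ℤ) : ℝ)) = (Real.exp (β * ((s : ℤ) : ℝ)))⁻¹ := by
        rw [← Real.exp_neg]
        congr 1
        push_cast
        ring
      rw [h6]
      have h7 := (Real.exp_pos (β * ((s : ℤ) : ℝ))).ne'
      field_simp
      ring
    have h8 := h4 _ _ h2
    have gen : ∀ a b c d : ℤˣ, a * b = c * d → a * c = b * d := by decide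
    exact gen _ _ _ _ h8

theorem st_SWI : ST_SWI := by
  intro V _ _ E _ _ ends β F f g x y ψ hψ
  rw [swi_PP, swi_PP]
  refine Finset.sum_congr rfl (fun T _ => ?_)
  by_cases hT : ψ T = 0
  · rw [hT, zero_mul, zero_mul]
  · congr 1
    refine Finset.sum_congr rfl (fun σ _ => Finset.sum_congr rfl (fun τ _ => ?_))
    by_cases hC : swi_C ends β F T σ τ = 0
    · rw [hC, mul_zero, mul_zero]
    · have h1 := swi_two ends β F T σ τ x y (hψ T hT) hC
      have h2 : two x y σ * two x y τ = 1 := by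
        unfold two
        have gen : ∀ a b c d : ℤˣ, a * c = b * d → (a * b) * (c * d) = 1 := by decide
        have h3 := gen (σ x) (σ y) (τ x) (τ y) h1
        have h4 : (((σ x * σ y * (τ x * τ y) : ℤˣ) : ℤ) : ℝ) = 1 := by
          rw [h3]
          simp
        rw [← h4]
        push_cast
        ring
      calc f σ * g τ * swi_C ends β F T σ τ
          = f σ * g τ * swi_C ends β F T σ τ * (two x y σ * two x y τ) := by rw [h2, mul_one]
        _ = _ := by ring

end IIC
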