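import Pool.Agent.Helper20.IIC.Stmts

namespace IIC

open scoped BigOperators

universe u v

/-- the value of a bond as a unit -/
def twn_b {V : Type u} {E : Type v} (ends : E → Sym2 V) (σ : V → ℤˣ) (e : E) : ℤˣ :=
  (Sym2.map σ (ends e)).mul

theorem twn_b_mul {V : Type u} {E : Type v} (ends : E → Sym2 V) (σ τ : V → ℤˣ) (e : E) :
    twn_b ends (σ * τ) e = twn_b ends σ e * twn_b ends τ e := by
  unfold twn_b
  induction ends e with
  | _ x y =>
    simp only [Sym2.map_mk, Sym2.mul_mk, Pi.mul_apply]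
    exact mul_mul_mul_comm _ _ _ _

theorem twn_sum_nonneg {G : Type u} [Group G] [Fintype G] (χ : G → ℤˣ)
    (h : ∀ a b, χ (a * b) = χ a * χ b) : 0 ≤ ∑ a : G, (((χ a : ℤˣ) : ℤ) : ℝ) := by
  by_cases ht : ∀ a, χ a = 1
  · apply Finset.sum_nonneg
    intro a _
    rw [ht a]
    simp
  · push Not at ht
    obtain ⟨c, hc⟩ := ht
    have hc' : χ c = -1 := (Int.units_eq_one_or (χ c)).resolve_left hc
    have h1 : ∑ a : G, (((χ a : ℤˣ) : ℤ) : ℝ) = ∑ a : G, (((χ (a * c) : ℤˣ) : ℤ) : ℝ) :=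
      (Equiv.sum_comp (Equiv.mulRight c) (fun a => (((χ a : ℤˣ) : ℤ) : ℝ))).symm
    have h2 : ∑ a : G, (((χ (a * c) : ℤˣ) : ℤ) : ℝ) = - ∑ a : G, (((χ a : ℤˣ) : ℤ) : ℝ) := by
      rw [← Finset.sum_neg_distrib]
      refine Finset.sum_congr rfl (fun a _ => ?_)
      rw [h, hc']
      push_cast
      ring
    have h3 : ∑ a : G, (((χ a : ℤˣ) : ℤ) : ℝ) = 0 := by linarith
    rw [h3]

theorem twn_exp (β : ℝ) (s : ℤˣ) :
    Real.exp (β * (((s : ℤˣ) : ℤ) : ℝ)) - 1
      = Real.sinh β * (((s : ℤˣ) : ℤ) : ℝ) + (Real.cosh β - 1) := by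
  rcases Int.units_eq_one_or s with rfl | rfl
  · simp only [Units.val_one, Int.cast_one, mul_one]
    rw [Real.sinh_eq, Real.cosh_eq]
    ring
  · simp only [Units.val_neg, Units.val_one, Int.cast_neg, Int.cast_one, mul_neg, mul_one]
    rw [Real.sinh_eq, Real.cosh_eq]
    ring

theorem st_TWN : ST_TWN := by
  intro V _ _ E _ _ ends β T x y hβ
  unfold tw
  have h1 : ∀ σ : V → ℤˣ, two x y σ * ∏ e ∈ T, (Real.exp (β * bond ends σ e) - 1)
      = ∑ t ∈ T.powerset, (Real.sinh β ^ t.card * (Real.cosh β - 1) ^ (T \ t).card) *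
        ((((σ x * σ y * ∏ e ∈ t, twn_b ends σ e : ℤˣ)) : ℤ) : ℝ) := by
    intro σ
    have h2 : ∏ e ∈ T, (Real.exp (β * bond ends σ e) - 1)
        = ∏ e ∈ T, (Real.sinh β * (((twn_b ends σ e : ℤˣ) : ℤ) : ℝ) + (Real.cosh β - 1)) :=
      Finset.prod_congr rfl (fun e _ => twn_exp β (twn_b ends σ e))
    rw [h2, Finset.prod_add, Finset.mul_sum]
    refine Finset.sum_congr rfl (fun t _ => ?_)
    rw [Finset.prod_mul_distrib, Finset.prod_const, Finset.prod_const]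
    unfold two
    push_cast
    ring
  rw [Finset.sum_congr rfl (fun σ _ => h1 σ), Finset.sum_comm]
  refine Finset.sum_nonneg (fun t _ => ?_)
  rw [← Finset.mul_sum]
  apply mul_nonneg
  · apply mul_nonneg
    · exact pow_nonneg (Real.sinh_nonneg_iff.mpr hβ) _
    · exact pow_nonneg (by linarith [Real.one_le_cosh β]) _
  · apply twn_sum_nonneg (fun σ : V → ℤˣ => σ x * σ y * ∏ e ∈ t, twn_b ends σ e)
    intro σ τ
    simp only [twn_b_mul, Pi.mul_apply, Finset.prod_mul_distrib]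
    rw [mul_mul_mul_comm (σ x), mul_mul_mul_comm (σ x * σ y)]

end IIC
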