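import Pool.Agent.Helper20.IIC.Stmts

namespace IIC

open scoped BigOperators

theorem fkga_pos {V : Type} {E : Type} (ends : E → Sym2 V) (β : ℝ) (hβ : 0 ≤ β)
    (T : Finset E) : 0 ≤ fkw ends β T := by
  unfold fkw
  have : 0 ≤ Real.exp (2 * β) - 1 := by
    have := Real.one_le_exp (show 0 ≤ 2 * β by linarith)
    linarith
  positivity

theorem fkga_Zpos {V : Type} {E : Type} [Fintype E] (ends : E → Sym2 V) (β : ℝ) (hβ : 0 ≤ β) :
    0 < ∑ T : Finset E, fkw ends β T := by
  refine Finset.sum_pos' (fun T _ => fkga_pos ends β hβ T) ⟨∅, Finset.mem_univ _, ?_⟩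
  unfold fkw
  simp

theorem st_FKGA (hS : ST_SUP) : ST_FKGA := by
  classical
  intro V _ E _ _ ends β hβ A B hA hB
  have ha : 0 ≤ Real.exp (2 * β) - 1 := by
    have := Real.one_le_exp (show 0 ≤ 2 * β by linarith)
    linarith
  have hZ := fkga_Zpos ends β hβ
  have hsm : ∀ S T : Finset E, fkw ends β S * fkw ends β T
      ≤ fkw ends β (S ⊓ T) * fkw ends β (S ⊔ T) := by
    intro S T
    unfold fkw
    have h1 : (S ⊓ T).card + (S ⊔ T).card = S.card + T.card := by
      rw [add_comm]
      exact Finset.card_union_add_card_inter S T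
    have h2 := hS V E ends (S : Set E) (T : Set E)
    have h3 : (((S ⊓ T : Finset E)) : Set E) = (S : Set E) ∩ T := Finset.coe_inter S T
    have h4 : (((S ⊔ T : Finset E)) : Set E) = (S : Set E) ∪ T := Finset.coe_union S T
    rw [h3, h4]
    calc (Real.exp (2 * β) - 1) ^ S.card * 2 ^ ncl ends (S : Set E) *
          ((Real.exp (2 * β) - 1) ^ T.card * 2 ^ ncl ends (T : Set E))
        = (Real.exp (2 * β) - 1) ^ (S.card + T.card) *
          2 ^ (ncl ends (S : Set E) + ncl ends (T : Set E)) := by
          rw [pow_add, pow_add]; ring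
      _ ≤ (Real.exp (2 * β) - 1) ^ (S.card + T.card) *
          2 ^ (ncl ends ((S : Set E) ∪ T) + ncl ends ((S : Set E) ∩ T)) := by
          apply mul_le_mul_of_nonneg_left _ (pow_nonneg ha _)
          exact pow_le_pow_right₀ (by norm_num) h2
      _ = _ := by
          rw [← h1, pow_add, pow_add]; ring
  have key := fkg (μ := fkw ends β) (f := A.indicator (fun _ => (1 : ℝ)))
    (g := B.indicator (fun _ => (1 : ℝ)))
    (fun T => fkga_pos ends β hβ T)
    (fun T => Set.indicator_nonneg (fun _ _ => zero_le_one) _)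
    (fun T => Set.indicator_nonneg (fun _ _ => zero_le_one) _)
    (by
      intro S T hST
      by_cases h : S ∈ A
      · rw [Set.indicator_of_mem h, Set.indicator_of_mem (hA hST h)]
      · rw [Set.indicator_of_notMem h]
        exact Set.indicator_nonneg (fun _ _ => zero_le_one) _)
    (by
      intro S T hST
      by_cases h : S ∈ B
      · rw [Set.indicator_of_mem h, Set.indicator_of_mem (hB hST h)]
      · rw [Set.indicator_of_notMem h]
        exact Set.indicator_nonneg (fun _ _ => zero_le_one) _)
    hsm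
  have hind : ∀ C : Set (Finset E), ∑ T : Finset E, C.indicator (fkw ends β) T
      = ∑ T : Finset E, fkw ends β T * C.indicator (fun _ => (1 : ℝ)) T := by
    intro C
    refine Finset.sum_congr rfl (fun T _ => ?_)
    by_cases h : T ∈ C
    · rw [Set.indicator_of_mem h, Set.indicator_of_mem h, mul_one]
    · rw [Set.indicator_of_notMem h, Set.indicator_of_notMem h, mul_zero]
  have hAB : ∀ T : Finset E, A.indicator (fun _ => (1 : ℝ)) T * B.indicator (fun _ => (1 : ℝ)) T
      = (A ∩ B).indicator (fun _ => (1 : ℝ)) T := by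
    intro T
    by_cases h : T ∈ A
    · by_cases h' : T ∈ B
      · rw [Set.indicator_of_mem h, Set.indicator_of_mem h', Set.indicator_of_mem (show T ∈ A ∩ B from ⟨h, h'⟩), mul_one]
      · rw [Set.indicator_of_notMem h', Set.indicator_of_notMem (show T ∉ A ∩ B from fun h2 => h' h2.2), mul_zero]
    · rw [Set.indicator_of_notMem h, Set.indicator_of_notMem (show T ∉ A ∩ B from fun h2 => h h2.1), zero_mul]
  unfold fkP
  rw [hind A, hind B, hind (A ∩ B), div_mul_div_comm, div_le_div_iff₀ (by positivity) hZ]
  have key2 : (∑ T : Finset E, fkw ends β T * A.indicator (fun _ => (1 : ℝ)) T) *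
      ∑ T : Finset E, fkw ends β T * B.indicator (fun _ => (1 : ℝ)) T
      ≤ (∑ T : Finset E, fkw ends β T) *
        ∑ T : Finset E, fkw ends β T * (A ∩ B).indicator (fun _ => (1 : ℝ)) T := by
    refine key.trans (le_of_eq ?_)
    congr 1
    refine Finset.sum_congr rfl (fun T _ => ?_)
    rw [hAB T]
  calc _ ≤ ((∑ T : Finset E, fkw ends β T) *
        ∑ T : Finset E, fkw ends β T * (A ∩ B).indicator (fun _ => (1 : ℝ)) T) *
        ∑ T : Finset E, fkw ends β T := mul_le_mul_of_nonneg_right key2 hZ.le
    _ = _ := by ring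

end IIC
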